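import Mathlib

namespace Pool.Agent.H.MP_73cdf8_lc

open Finset

/-- value at `x` of the polynomial with coefficient list `F` -/
noncomputable def ev (F : List ℚ) (x : ℝ) : ℝ := ∑ j ∈ range F.length, (F.getD j 0 : ℝ) * x ^ j

/-- some `k`-cut is a consensus halving for all the listed polynomials -/
def CH (a : List (List ℚ) × ℕ) : Prop :=
  ∃ x : ℕ → ℝ, x 0 = 0 ∧ x (a.2 + 1) = 1 ∧ (∀ i ≤ a.2, x i ≤ x (i + 1)) ∧ ∀ F ∈ a.1,
    ∑ i ∈ range (a.2 + 1) with Even i, (ev F (x (i + 1)) - ev F (x i)) =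
      ∑ i ∈ range (a.2 + 1) with Odd i, (ev F (x (i + 1)) - ev F (x i))

noncomputable def W (c : ℝ) : ℕ → ℝ
  | 0 => 1
  | 1 => 2 * c - 1
  | n + 2 => 2 * c * W c (n + 1) - W c n

noncomputable def V (K : ℕ) (t : ℝ) (n : ℕ) : ℝ := ∑ k ∈ range K, ((n + k).choose (2 * k) : ℝ) * t ^ k

theorem V_rec {K n : ℕ} (t : ℝ) (h : n + 2 < K) : V K t (n + 2) = (2 + t) * V K t (n + 1) - V K t n := by
  obtain ⟨K, rfl⟩ : ∃ k, K = k + 1 := ⟨K - 1, by omega⟩
  have e : t * V (K + 1) t (n + 1) = ∑ k ∈ range K, ((n + 1 + k).choose (2 * k) : ℝ) * t ^ (k + 1) := by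
    rw [V, sum_range_succ, Nat.choose_eq_zero_of_lt (by omega), Nat.cast_zero, zero_mul, add_zero, mul_sum]
    exact sum_congr rfl fun k _ => by ring
  rw [add_mul, e]
  simp only [V, sum_range_succ', mul_zero, Nat.choose_zero_right, pow_zero, mul_one, Nat.cast_one, mul_add, mul_sum]
  have : ∑ k ∈ range K, ((n + 2 + (k + 1)).choose (2 * k + 2 * 1) : ℝ) * t ^ (k + 1) =
      ∑ k ∈ range K, (2 * (((n + 1 + (k + 1)).choose (2 * k + 2 * 1) : ℝ) * t ^ (k + 1)) +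
        ((n + 1 + k).choose (2 * k) : ℝ) * t ^ (k + 1) - ((n + (k + 1)).choose (2 * k + 2 * 1) : ℝ) * t ^ (k + 1)) := by
    refine sum_congr rfl fun k _ => ?_
    rw [show n + 2 + (k + 1) = n + 1 + k + 1 + 1 by ring, show n + 1 + (k + 1) = n + 1 + k + 1 by ring,
      show n + (k + 1) = n + 1 + k by ring, show 2 * k + 2 * 1 = 2 * k + 1 + 1 by ring]
    simp only [Nat.choose_succ_succ', Nat.cast_add]
    ring
  simp only [mul_one] at this
  rw [this, sum_sub_distrib, sum_add_distrib]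
  ring

theorem V_eq (K : ℕ) (x : ℝ) : ∀ n, n < K → V K (-4 * x) n = W (1 - 2 * x) n
  | 0, h => by
    rw [V, sum_eq_single 0 (fun k _ hk => by rw [Nat.choose_eq_zero_of_lt (by omega)]; simp) (by simp; omega)]
    simp [W]
  | 1, h => by
    obtain ⟨K, rfl⟩ : ∃ k, K = k + 2 := ⟨K - 2, by omega⟩
    rw [V, sum_range_succ', sum_range_succ',
      sum_eq_zero fun k _ => by rw [Nat.choose_eq_zero_of_lt (by omega)]; simp]
    simp [W]; ring
  | n + 2, h => by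
    rw [V_rec _ h, V_eq K x (n + 1) (by omega), V_eq K x n (by omega), W]; ring

open PowerSeries

noncomputable def S (c : ℝ) : ℝ⟦X⟧ := mk fun n => W c (n + 1) + W c n

noncomputable def qs (c : ℝ) : ℝ⟦X⟧ := 1 - C (2 * c) * X + X ^ 2

theorem d_qs (c : ℝ) : d⁄dX ℝ (qs c) = -S c * qs c := by
  have : S c * qs c = C (2 * c) - 2 * X := by
    ext n
    rw [qs, mul_add, mul_sub, mul_one, mul_left_comm, show (2 : ℝ⟦X⟧) = C 2 from rfl, map_add, map_sub, map_sub,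
      coeff_C_mul, coeff_C_mul, coeff_mul_X_pow']
    rcases n with _ | _ | n
    · simp [S, W]
    · rw [coeff_succ_mul_X]; simp [S, W, -map_mul]; ring
    · rw [coeff_succ_mul_X]; simp [S, W, coeff_X, -map_mul]; ring
  rw [neg_mul, this, qs]
  simp [Derivation.leibniz, Derivation.leibniz_pow]
  ring

theorem d_prod (c : ℕ → ℝ) (M : ℕ) :
    d⁄dX ℝ (∏ i ∈ range M, qs (c i)) = -(∑ i ∈ range M, S (c i)) * ∏ i ∈ range M, qs (c i) := by
  induction M with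
  | zero => simp
  | succ M ih => rw [prod_range_succ, sum_range_succ, Derivation.leibniz, ih, d_qs]; simp only [smul_eq_mul]; ring

theorem dvd_of_d {f : ℝ⟦X⟧} {r : ℕ} (h0 : constantCoeff f = 0) (h : X ^ r ∣ d⁄dX ℝ f) : X ^ (r + 1) ∣ f := by
  rw [X_pow_dvd_iff] at h ⊢
  rintro (_ | m) hm
  · simpa using h0
  · have := h m (by omega)
    rw [coeff_derivative] at this
    exact (mul_eq_zero.1 this).resolve_right (by positivity)

theorem d_dvd {f : ℝ⟦X⟧} {r : ℕ} (h : X ^ (r + 1) ∣ f) : X ^ r ∣ d⁄dX ℝ f := by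
  rw [X_pow_dvd_iff] at h ⊢
  intro m hm
  rw [coeff_derivative, h _ (by omega), zero_mul]

theorem cancel {f g e : ℝ⟦X⟧} (he : constantCoeff e = 1) (h : g ∣ f * e) : g ∣ f := by
  have : f = f * e * e⁻¹ := by rw [mul_assoc, PowerSeries.mul_inv_cancel _ (by simp [he]), mul_one]
  exact this ▸ h.mul_right _

theorem dvd_of_w {f e : ℝ⟦X⟧} {r : ℕ} (h0 : constantCoeff f = 0) (he : constantCoeff e = 1)
    (h : X ^ r ∣ d⁄dX ℝ f * e - f * d⁄dX ℝ e) : X ^ (r + 1) ∣ f := by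
  obtain ⟨Q, rfl⟩ : ∃ Q, f = Q * e :=
    ⟨f * e⁻¹, by rw [mul_assoc, PowerSeries.inv_mul_cancel _ (by simp [he]), mul_one]⟩
  refine (dvd_of_d (by simpa [he] using h0) (cancel he (cancel he ?_))).mul_right _
  convert h using 1
  rw [Derivation.leibniz]; simp only [smul_eq_mul]; ring

theorem core {E F l : ℝ⟦X⟧} (hE : constantCoeff E = 1) (hF : constantCoeff F = 0) (hl : constantCoeff l = 0)
    (h : d⁄dX ℝ F * E - F * d⁄dX ℝ E = d⁄dX ℝ l * (E ^ 2 - F ^ 2)) (a : ℕ) :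
    (X ^ (a + 1) ∣ F → X ^ (a + 1) ∣ l) ∧
      (X ^ (a + 1) ∣ l → X ^ (a + 1) ∣ F ∧ X ^ (3 * (a + 1)) ∣ F - l * E) := by
  have k : d⁄dX ℝ (F - l * E) * E - (F - l * E) * d⁄dX ℝ E = -(d⁄dX ℝ l * F ^ 2) := by
    rw [map_sub, Derivation.leibniz]; simp only [smul_eq_mul]; linear_combination h
  have z : constantCoeff (F - l * E) = 0 := by simp [hF, hl]
  refine ⟨fun q => dvd_of_d hl (cancel (e := E ^ 2 - F ^ 2) (by simp [hE, hF]) ?_), fun q => ?_⟩
  · rw [← h]; exact ((d_dvd q).mul_right _).sub (((pow_dvd_pow _ a.le_succ).trans q).mul_right _)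
  have q1 : X ^ (a + 1) ∣ F := by
    have := dvd_of_w z hE (k ▸ ((d_dvd q).mul_right _).neg_right)
    simpa using this.add (q.mul_right E)
  refine ⟨q1, ?_⟩
  rw [show 3 * (a + 1) = a + (a + 1) * 2 + 1 by ring]
  refine dvd_of_w z hE (k ▸ Dvd.dvd.neg_right ?_)
  rw [pow_add, pow_mul]
  exact mul_dvd_mul (d_dvd q) (pow_dvd_pow_of_dvd q1 2)

end Pool.Agent.H.MP_73cdf8_lc
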