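import Pool.Agent.H.MP_73cdf8_lc.A

namespace Pool.Agent.H.MP_73cdf8_lc

open Finset Polynomial

def R (N : ℕ) (p q : ℝ[X]) : Prop := p.natDegree ≤ N ∧ reflect N p = q

namespace R
variable {N M : ℕ} {p q p' q' : ℝ[X]}

theorem symm (h : R N p q) : R N q p :=
  ⟨h.2 ▸ natDegree_reflect_le.trans (max_le le_rfl h.1), h.2 ▸ reflect_reflect⟩

theorem mul (h : R N p q) (h' : R M p' q') : R (N + M) (p * p') (q * q') :=
  ⟨natDegree_mul_le.trans (add_le_add h.1 h'.1), by rw [reflect_mul _ _ h.1 h'.1, h.2, h'.2]⟩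

theorem add (h : R N p q) (h' : R N p' q') : R N (p + p') (q + q') :=
  ⟨(natDegree_add_le _ _).trans (max_le h.1 h'.1), by rw [reflect_add, h.2, h'.2]⟩

theorem sub (h : R N p q) (h' : R N p' q') : R N (p - p') (q - q') :=
  ⟨(natDegree_sub_le _ _).trans (max_le h.1 h'.1), by rw [reflect_sub, h.2, h'.2]⟩

theorem one (N : ℕ) : R N 1 (X ^ N) := ⟨by simp, reflect_one N⟩

theorem c (a : ℝ) : R 0 (C a) (C a) := ⟨by simp, by simp⟩

theorem of (h : R N p q) (e : N = M) (e1 : p = p') (e2 : q = q') : R M p' q' := e ▸ e1 ▸ e2 ▸ h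

theorem up (h : R N p q) (k : ℕ) : R (k + N) p (X ^ k * q) := ((one k).mul h).of rfl (one_mul _) rfl

theorem sh (h : R N p q) (k : ℕ) : R (k + N) (X ^ k * p) q := (h.symm.up k).symm

theorem uq (h : R N p q) (h' : R N p q') : q = q' := h.2.symm.trans h'.2

theorem co (h : R N p q) {i j : ℕ} (e : i + j = N) : q.coeff i = p.coeff j := by
  rw [← h.2, coeff_reflect, revAt_le (by omega), show N - i = j by omega]

theorem z (h : R N p q) {i : ℕ} (e : N < i) : p.coeff i = 0 := coeff_eq_zero_of_natDegree_lt (h.1.trans_lt e)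

theorem mk' (p : ℝ[X]) (h : p.natDegree ≤ N) : R N p (reflect N p) := ⟨h, rfl⟩

end R

noncomputable def qp (c : ℝ) : ℝ[X] := 1 - C (2 * c) * X + X ^ 2

theorem R_qp (c : ℝ) : R 2 (qp c) (qp c) :=
  (((R.one 2).sub ((((R.c (2 * c)).up 1).sh 1).of rfl rfl rfl)).add (R.one 2).symm).of rfl (by rw [qp]; ring)
    (by rw [qp]; ring)

theorem R_prod (c : ℕ → ℝ) (M : ℕ) : R (2 * M) (∏ i ∈ range M, qp (c i)) (∏ i ∈ range M, qp (c i)) := by
  induction M with
  | zero => exact (R.one 0).of rfl (by simp) (by simp)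
  | succ M ih => rw [prod_range_succ]; exact ih.mul (R_qp _)

noncomputable def PA (c : ℕ → ℝ) (M : ℕ) : ℝ[X] := ∏ i ∈ range (M + 1), qp (c (2 * i + 1))

noncomputable def PB (c : ℕ → ℝ) (M : ℕ) : ℝ[X] := (1 - X ^ 2) * ∏ i ∈ range M, qp (c (2 * i + 2))

theorem R_PB (c M) : R (2 * (M + 1)) (PB c M) (-PB c M) :=
  (((R.one 2).sub (R.one 2).symm).mul (R_prod _ M)).of (by ring) rfl (by rw [PB]; ring)

theorem PA0 (c M) : (PA c M).coeff 0 = 1 := by simp [PA, qp, coeff_zero_eq_eval_zero, eval_prod]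

theorem PB0 (c M) : (PB c M).coeff 0 = 1 := by simp [PB, qp, coeff_zero_eq_eval_zero, eval_prod]

/-- half the halving defect of the `n + 1`-st test function -/
noncomputable def cc (c : ℕ → ℝ) (M : ℕ) : PowerSeries ℝ :=
  ∑ i ∈ range (M + 1), S (c (2 * i + 1)) -
    PowerSeries.C (1 / 2 : ℝ) * (∑ i ∈ range (M + 1), S (c (2 * i)) + ∑ i ∈ range (M + 1), S (c (2 * i + 2)))

noncomputable def lam (c : ℕ → ℝ) (M : ℕ) : PowerSeries ℝ :=
  PowerSeries.mk fun n => -PowerSeries.coeff (n - 1) (cc c M) / (2 * n)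

theorem coe_qp (c : ℝ) : (qp c : PowerSeries ℝ) = qs c := by simp [qp, qs]

theorem coe_prod (c : ℕ → ℝ) (M : ℕ) : ((∏ i ∈ range M, qp (c i) : ℝ[X]) : PowerSeries ℝ) = ∏ i ∈ range M, qs (c i) := by
  induction M with
  | zero => simp
  | succ M ih => rw [prod_range_succ, prod_range_succ, Polynomial.coe_mul, ih, coe_qp]

theorem link {c : ℕ → ℝ} {M : ℕ} (h0 : c 0 = 1) (h1 : c (2 * M + 2) = -1) {E F : ℝ[X]} (hA : PA c M = E + F)
    (hB : PB c M = E - F) (a : ℕ) :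
    (X ^ (a + 1) ∣ F → PowerSeries.X ^ (a + 1) ∣ lam c M) ∧
      (PowerSeries.X ^ (a + 1) ∣ lam c M → X ^ (a + 1) ∣ F ∧ PowerSeries.X ^ (3 * (a + 1)) ∣ (F : PowerSeries ℝ) - lam c M * (E : PowerSeries ℝ)) := by
  have a0 := PA0 c M
  have b0 := PB0 c M
  rw [hA, coeff_add] at a0
  rw [hB, coeff_sub] at b0
  have cv : X ^ (a + 1) ∣ F ↔ PowerSeries.X ^ (a + 1) ∣ (F : PowerSeries ℝ) := by
    simp [X_pow_dvd_iff, PowerSeries.X_pow_dvd_iff]
  rw [cv]
  refine core (by simp; linarith) (by simp; linarith) (by simp [lam]) ?_ a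
  have dl : PowerSeries.derivative ℝ (lam c M) = -(PowerSeries.C (1 / 2 : ℝ) * cc c M) := by
    ext n
    rw [PowerSeries.coeff_derivative, map_neg, PowerSeries.coeff_C_mul, lam, PowerSeries.coeff_mk]
    simp; field_simp
  have dA := d_prod (fun i => c (2 * i + 1)) (M + 1)
  have e1 := d_prod (fun i => c (2 * i)) (M + 1)
  have e2 := d_prod (fun i => c (2 * i + 2)) (M + 1)
  rw [← coe_prod, ← PA, hA] at dA
  have sq : ((E - F : ℝ[X]) : PowerSeries ℝ) * (E - F : ℝ[X]) =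
      (∏ i ∈ range (M + 1), qs (c (2 * i))) * ∏ i ∈ range (M + 1), qs (c (2 * i + 2)) := by
    rw [← hB, PB, Polynomial.coe_mul, coe_prod, prod_range_succ', prod_range_succ, mul_zero, h0, h1]
    simp only [mul_add, mul_one, qs, Polynomial.coe_sub, Polynomial.coe_one, Polynomial.coe_pow, coe_X, mul_neg, map_neg,
      show PowerSeries.C (2 : ℝ) = 2 from rfl]
    ring
  have dB := congrArg (PowerSeries.derivative ℝ) sq
  rw [Derivation.leibniz, Derivation.leibniz, e1, e2] at dB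
  have h2 : PowerSeries.C (1 / 2 : ℝ) * 2 = 1 := by
    rw [show (2 : PowerSeries ℝ) = PowerSeries.C (2 : ℝ) from rfl, ← map_mul]; simp
  have nz : ((E - F : ℝ[X]) : PowerSeries ℝ) ≠ 0 := fun e => by
    have := congrArg (PowerSeries.coeff 0) e
    rw [coeff_coe, coeff_sub, b0] at this; simp at this
  refine mul_left_cancel₀ nz ?_
  simp only [smul_eq_mul, Polynomial.coe_sub, Polynomial.coe_add, map_sub, map_add] at dA dB sq ⊢
  rw [dl, cc]
  generalize PowerSeries.C (1 / 2 : ℝ) = h at *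
  linear_combination h * (E - F : PowerSeries ℝ) ^ 2 * dA - h ^ 2 * (E + F : PowerSeries ℝ) * dB -
    h ^ 2 * (E + F : PowerSeries ℝ) * (∑ i ∈ range (M + 1), S (c (2 * i)) + ∑ i ∈ range (M + 1), S (c (2 * i + 2))) * sq -
    ((E - F : PowerSeries ℝ) * (PowerSeries.derivative ℝ (F : PowerSeries ℝ) * E - F * PowerSeries.derivative ℝ (E : PowerSeries ℝ)) -
      h * (E - F) * (E + F) * (PowerSeries.derivative ℝ (E : PowerSeries ℝ) - PowerSeries.derivative ℝ (F : PowerSeries ℝ))) * h2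

end Pool.Agent.H.MP_73cdf8_lc
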