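import Pool.Agent.H.MP_73cdf8_lc.B

namespace Pool.Agent.H.MP_73cdf8_lc

open Finset Polynomial

theorem sep {N t : ℕ} {p q p' q' : ℝ[X]} (h : R N p p') (h' : R N q q') (ht : N < t) (d : X ^ t ∣ p - q) : p = q :=
  sub_eq_zero.1 (eq_zero_of_dvd_of_natDegree_lt d (by simpa using (h.sub h').1.trans_lt ht))

theorem alg {K : Type} [CommRing K] [IsDomain K] {V F G P Q T k l : K} (hV : V ≠ 0) (hP : P ≠ 0)
    (hk : k = P ^ 2 - F * Q) (hl : l = P ^ 2 - G * T) (w0 : -(V * P * T) = F * P * l)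
    (w1 : V * (V * P ^ 2 + Q * T) = V * F * G * P ^ 2 + k * l) (w2 : -(V * V * Q * P) = k * V * G * P) :
    (V - F * G) ^ 2 = P ^ 2 := by
  have e0 : V * T = -(F * l) := mul_left_cancel₀ hP (by linear_combination -w0)
  have e2 : V * Q = -(G * k) := mul_left_cancel₀ (mul_ne_zero hV hP) (by linear_combination -w2)
  have ek : k * (V - F * G) = V * P ^ 2 := by linear_combination V * hk - F * e2
  have el : l * (V - F * G) = V * P ^ 2 := by linear_combination V * hl - G * e0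
  have hD : V - F * G ≠ 0 := fun e => by
    rw [e, mul_zero] at ek
    exact mul_ne_zero hV (pow_ne_zero 2 hP) ek.symm
  have e3 : k * l = V ^ 2 * P ^ 2 := mul_left_cancel₀ hD (by
    linear_combination -V * w1 + V * Q * e0 - F * l * e2)
  refine mul_left_cancel₀ (mul_ne_zero (pow_ne_zero 2 hV) (pow_ne_zero 2 hP)) ?_
  linear_combination -(V - F * G) ^ 2 * e3 + l * (V - F * G) * ek + V * P ^ 2 * el

theorem gap {m n : ℕ} {E G F0 G0 F1 F2 G2 : ℝ[X]} (hm : 8 * n < m) (hE : R (m + n) E G) (E0 : E ≠ 0)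
    (h0 : R n F0 G0) (h1 : R (2 * n) F1 F1) (h2 : R (3 * n) F2 G2)
    (d : X ^ (2 * m + 5 * n + 1) ∣ G - (F0 + X ^ m * F1 + X ^ (2 * m) * F2) * E) :
    (X ^ n - F0 * G0) ^ 2 = F1 ^ 2 := by
  have G0' : G ≠ 0 := fun e => E0 (by have := hE.2; rwa [e, reflect_eq_zero_iff] at this)
  have EG := mul_ne_zero E0 G0'
  by_cases hP : F1 = 0
  · have a : G = F0 * E := by
      refine sep (hE.symm.up n) (h0.mul hE) (t := 2 * m) (by omega) ?_
      have := ((pow_dvd_pow _ (by omega : 2 * m ≤ _)).trans d).add (dvd_mul_right (X ^ (2 * m)) (F2 * E))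
      convert this using 1
      rw [hP]; ring
    have b := (hE.symm.up n).uq ((h0.mul hE).of rfl a.symm rfl)
    rw [hP, mul_left_cancel₀ EG (show E * G * (X ^ n - F0 * G0) = E * G * 0 by
      linear_combination G * b + G0 * G * a)]
  have rk := (h1.mul h1).sub ((h0.mul h2).of (by ring) rfl rfl)
  have rL := ((h1.up (m + n)).of (M := m + 3 * n) (by ring) rfl rfl).sub (h2.sh m)
  have rN := (((h0.mul h1).up (m + n)).of (M := m + (2 * n + 2 * n)) (by ring) rfl rfl).add (rk.sh m)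
  have r1 := ((rL.mul hE.symm).up n).of (M := 2 * m + 5 * n) (by ring) rfl rfl
  have r2 := (rN.mul hE).of (M := 2 * m + 5 * n) (by ring) rfl rfl
  have a := sep r1 r2 (Nat.lt_succ_self _) (by
    have := (d.mul_left (F1 - X ^ m * F2)).sub
      ((pow_dvd_pow X (by omega : 2 * m + 5 * n + 1 ≤ 3 * m)).mul_right (F2 ^ 2 * E))
    convert this using 1
    ring)
  have b := r1.uq (r2.of rfl a.symm rfl)
  have c : -(X ^ n * F1 * G2) + X ^ m * (X ^ n * (X ^ n * F1 ^ 2 + F2 * G2) + X ^ m * -(X ^ n * X ^ n * F2 * F1)) =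
      F0 * F1 * (F1 * F1 - G0 * G2) + X ^ m * (X ^ n * F0 * G0 * F1 ^ 2 + (F1 * F1 - F0 * F2) * (F1 * F1 - G0 * G2) +
        X ^ m * ((F1 * F1 - F0 * F2) * X ^ n * G0 * F1)) := by
    refine mul_left_cancel₀ EG ?_
    rw [pow_add] at b
    linear_combination (F1 - X ^ m * F2) * G * b +
      (X ^ m * X ^ n * (G0 * F1) + (F1 * F1 - G0 * G2)) * G * a
  have one := (R.one n).symm
  have w0 : -(X ^ n * F1 * G2) = F0 * F1 * (F1 * F1 - G0 * G2) := by
    refine sep (N := 7 * n) (((((R.c (-1)).mul one).mul h1).mul h2.symm).up n |>.of (by ring) (by simp) rfl)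
      (((h0.mul h1).mul rk.symm).of (by ring) rfl rfl) (t := m) (by omega) ?_
    rw [sub_eq_sub_iff_add_eq_add.2 (c.trans (add_comm _ _))]
    exact (dvd_mul_right _ _).sub (dvd_mul_right _ _)
  rw [w0, add_right_inj] at c
  have c := mul_left_cancel₀ (pow_ne_zero m X_ne_zero) c
  have w1 : X ^ n * (X ^ n * F1 ^ 2 + F2 * G2) = X ^ n * F0 * G0 * F1 ^ 2 + (F1 * F1 - F0 * F2) * (F1 * F1 - G0 * G2) := by
    refine sep (N := 8 * n)
      ((one.mul ((((one.mul (h1.mul h1)).up n).of (M := 3 * n + 3 * n) (by ring) rfl rfl).add (h2.mul h2.symm))).up n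
        |>.of (by ring) (by ring) rfl)
      ((((((one.mul h0).mul h0.symm).mul (h1.mul h1)).up n).of (M := 2 * n + 2 * n + (2 * n + 2 * n)) (by ring) rfl rfl).add
        (rk.mul rk.symm) |>.of (by ring) (by ring) rfl) hm
      ⟨(F1 * F1 - F0 * F2) * X ^ n * G0 * F1 + X ^ n * X ^ n * F2 * F1, by linear_combination c⟩
  rw [w1, add_right_inj] at c
  exact alg (pow_ne_zero n X_ne_zero) hP (by ring) (by ring) w0 w1 (mul_left_cancel₀ (pow_ne_zero m X_ne_zero) c)

end Pool.Agent.H.MP_73cdf8_lc
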