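import Pool.Agent.H.MP_73cdf8_lc.B

namespace Pool.Agent.H.MP_73cdf8_lc

open Finset Polynomial Real Complex ComplexConjugate

theorem cop {c d : ℝ} (h : c ≠ d) : IsCoprime (qp c) (qp d) := by
  have k : C (2 * d - 2 * c)⁻¹ * (C (2 * d) - C (2 * c)) = 1 := by
    rw [← map_sub, ← map_mul, inv_mul_cancel₀ (by intro e; apply h; linarith), map_one]
  exact ⟨1 - (X - C (2 * c)) * C (2 * d - 2 * c)⁻¹, (X - C (2 * c)) * C (2 * d - 2 * c)⁻¹, by
    unfold qp; linear_combination -(X - C (2 * c)) * X * k⟩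

theorem eqP {N : ℕ} {P A : ℝ[X]} (d : P ∣ A) (hA : A.natDegree ≤ N) (hP : P.coeff N ≠ 0) (a : A.coeff 0 = 1)
    (p : P.coeff 0 = 1) : P = A := by
  obtain ⟨r, rfl⟩ := d
  have z : P * r ≠ 0 := fun e => by simp [e] at a
  rw [natDegree_mul (left_ne_zero_of_mul z) (right_ne_zero_of_mul z)] at hA
  have := le_natDegree_of_ne_zero hP
  rw [mul_coeff_zero, p, one_mul] at a
  rw [eq_C_of_natDegree_eq_zero (p := r) (by omega), a, map_one, mul_one]

theorem qp_dvd {A : ℝ[X]} {θ : ℝ} (h : aeval (cexp (θ * I)) A = 0) (s : Real.sin θ ≠ 0) : qp (Real.cos θ) ∣ A := by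
  have := A.quadratic_dvd_of_aeval_eq_zero_im_ne_zero h (by simpa [exp_ofReal_mul_I_im] using s)
  rw [exp_ofReal_mul_I_re, norm_exp_ofReal_mul_I] at this
  convert this using 1
  simp [qp]; ring

theorem refl_ev {N : ℕ} {E F : ℝ[X]} (h : R N E F) (θ : ℝ) :
    aeval (cexp (θ * I)) F * cexp (-(N * θ * I)) = conj (aeval (cexp (θ * I)) E) := by
  have e : conj (cexp (θ * I)) = cexp (-(θ * I)) := by rw [← exp_conj]; simp
  let : Invertible (cexp (-(θ * I))) :=
    ⟨cexp (θ * I), by rw [← Complex.exp_add]; simp, by rw [← Complex.exp_add]; simp⟩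
  have := eval₂_reflect_mul_pow (algebraMap ℝ ℂ) (cexp (-(θ * I))) N E h.1
  rw [← aeval_conj, e, aeval_def, aeval_def, ← this, h.2, ← Complex.exp_nat_mul]
  congr 2
  ring

theorem root {M : ℕ} {E F : ℝ[X]} (h : R (2 * (M + 1)) E F) (hs : ∀ θ : ℝ, ‖aeval (cexp (θ * I)) E - 1‖ < √2 / 2)
    (j : ℕ) : ∃ t : ℝ, |t| < π / 4 ∧ aeval (cexp (((j * π / 2 + t) / (M + 1) : ℝ) * I)) F =
      (-1) ^ j * aeval (cexp (((j * π / 2 + t) / (M + 1) : ℝ) * I)) E := by
  let g : ℝ → ℝ := fun t => (cexp (-(t * I)) * aeval (cexp (((j * π / 2 + t) / (M + 1) : ℝ) * I)) E).im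
  have gc : Continuous g := by
    have := E.continuous_aeval (A := ℂ)
    fun_prop
  have b : ∀ t, |g t + Real.sin t| < √2 / 2 := fun t => by
    refine lt_of_le_of_lt ?_ (hs ((j * π / 2 + t) / (M + 1)))
    have e : cexp (-(t * I)) = cexp ((-t : ℝ) * I) := by simp
    have := abs_im_le_norm (cexp (-(t * I)) * (aeval (cexp (((j * π / 2 + t) / (M + 1) : ℝ) * I)) E - 1))
    rwa [norm_mul, mul_sub, sub_im, mul_one, e, norm_exp_ofReal_mul_I, exp_ofReal_mul_I_im, Real.sin_neg, sub_neg_eq_add,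
      one_mul, ← e] at this
  have b1 := abs_lt.1 (b (π / 4))
  have b2 := abs_lt.1 (b (-(π / 4)))
  rw [Real.sin_neg] at b2
  rw [Real.sin_pi_div_four] at b1 b2
  obtain ⟨t, ht, e⟩ := intermediate_value_Ioo' (f := g) (a := -(π / 4)) (b := π / 4) (by linarith [pi_pos])
    gc.continuousOn (show 0 ∈ Set.Ioo _ _ from ⟨by linarith, by linarith⟩)
  refine ⟨t, abs_lt.2 ht, ?_⟩
  have r := refl_ev h ((j * π / 2 + t) / (M + 1))
  have c := conj_eq_iff_im.2 e
  have e2 : cexp (-(((2 * (M + 1) : ℕ) : ℂ) * ((j * π / 2 + t) / (M + 1) : ℝ) * I)) =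
      (-1) ^ j * (cexp (-(t * I)) * cexp (-(t * I))) := by
    rw [← exp_neg_pi_mul_I, ← Complex.exp_nat_mul, ← Complex.exp_add, ← Complex.exp_add]
    congr 1
    have : (M : ℂ) + 1 ≠ 0 := by exact_mod_cast M.succ_ne_zero
    push_cast; field_simp; ring
  have e3 : cexp (-(t * I)) * conj (cexp (-(t * I))) = 1 := by rw [← exp_conj, ← Complex.exp_add]; simp
  have e4 : ((-1 : ℂ) ^ j) ^ 2 = 1 := by rw [← pow_mul, mul_comm, pow_mul]; simp
  rw [map_mul] at c
  rw [e2] at r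
  have nz := Complex.exp_ne_zero (-(t * I))
  refine mul_left_cancel₀ (mul_ne_zero nz nz) ?_
  generalize aeval (cexp (((j * π / 2 + t) / (M + 1) : ℝ) * I)) F = f at *
  generalize aeval (cexp (((j * π / 2 + t) / (M + 1) : ℝ) * I)) E = e at *
  generalize cexp (-(t * I)) = w at *
  linear_combination (-1) ^ j * r + (-1) ^ j * w * c - (-1) ^ j * conj e * e3 - w * w * f * e4

theorem PA1 (c M) : (PA c M).coeff (2 * (M + 1)) ≠ 0 := by
  have : R (2 * (M + 1)) (PA c M) (PA c M) := R_prod _ _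
  rw [this.co (add_zero _), PA0]; simp

theorem roots {M : ℕ} {E F : ℝ[X]} (h : R (2 * (M + 1)) E F) (E0 : E.coeff 0 = 1) (F0 : F.coeff 0 = 0)
    (hs : ∀ θ : ℝ, ‖aeval (cexp (θ * I)) E - 1‖ < √2 / 2) :
    ∃ c : ℕ → ℝ, c 0 = 1 ∧ c (2 * M + 2) = -1 ∧ (∀ i ≤ 2 * M + 1, c (i + 1) ≤ c i) ∧ PA c M = E + F ∧ PB c M = E - F := by
  choose t ht e using root h hs
  let s : ℕ → ℝ := fun j => if j = 0 ∨ j = 2 * M + 2 then 0 else t j
  let θ : ℕ → ℝ := fun j => (j * π / 2 + s j) / (M + 1)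
  have hs : ∀ j, |s j| < π / 4 := fun j => by
    simp only [s]; split_ifs
    · simpa using pi_pos
    · exact ht j
  have mo : StrictMono θ := strictMono_nat_of_lt_succ fun j => by
    refine div_lt_div_of_pos_right ?_ (by positivity)
    push_cast; linarith [abs_lt.1 (hs j), abs_lt.1 (hs (j + 1))]
  have t0 : θ 0 = 0 := by simp [θ, s]
  have t1 : θ (2 * M + 2) = π := by simp only [θ, s, or_true, if_true]; push_cast; field_simp; ring
  have mem : ∀ i ≤ 2 * M + 2, θ i ∈ Set.Icc 0 π := fun i hi => ⟨t0 ▸ mo.monotone i.zero_le, t1 ▸ mo.monotone hi⟩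
  have ne : ∀ i ≤ 2 * M + 2, ∀ j ≤ 2 * M + 2, i ≠ j → IsCoprime (qp (Real.cos (θ i))) (qp (Real.cos (θ j))) :=
    fun i hi j hj q => cop fun e => q (mo.injective (injOn_cos (mem i hi) (mem j hj) e))
  have dv : ∀ j, 0 < j → j < 2 * M + 2 → qp (Real.cos (θ j)) ∣ (-1) ^ j * E - F := fun j a b => by
    refine qp_dvd ?_ (sin_pos_of_pos_of_lt_pi (t0 ▸ mo a) (t1 ▸ mo b)).ne'
    have : θ j = (j * π / 2 + t j) / (M + 1) := by simp only [θ, s]; rw [if_neg (by omega)]
    rw [this, map_sub, e]; simp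
  refine ⟨fun i => Real.cos (θ i), by simp [t0], by simp [t1], fun i hi =>
    cos_le_cos_of_nonneg_of_le_pi (mem i (by omega)).1 (mem _ (by omega)).2 (mo.monotone i.le_succ), ?_, ?_⟩
  · refine eqP (prod_dvd_of_coprime (fun i hi j hj q => ne _ ?_ _ ?_ (by omega)) fun i hi => ?_) (h.add h.symm).1
      (PA1 _ _) (by simp [E0, F0]) (PA0 _ _)
    · simp at hi; omega
    · simp at hj; omega
    have := dv (2 * i + 1) (by omega) (by simp at hi; omega)
    rwa [pow_succ, pow_mul, neg_one_sq, one_pow, one_mul, neg_one_mul, ← neg_add', dvd_neg] at this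
  have rB := h.sub h.symm
  have ev : ∀ x : ℝ, x * x = 1 → X - C x ∣ E - F := fun x hx => by
    let : Invertible x := ⟨x, hx, hx⟩
    have := eval₂_reflect_mul_pow (RingHom.id ℝ) x _ _ rB.1
    rw [rB.2, pow_mul, sq, hx, one_pow, mul_one, show ⅟x = x from rfl] at this
    simp only [eval₂_id, eval_sub] at this
    exact dvd_iff_isRoot.2 (by simp; linarith)
  have d2 : (1 - X ^ 2 : ℝ[X]) ∣ E - F := by
    have := (isCoprime_X_sub_C_of_isUnit_sub (a := (1 : ℝ)) (b := -1) (by norm_num)).mul_dvd (ev 1 (by simp))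
      (ev (-1) (by simp))
    rw [← neg_dvd]; convert this using 1; simp; ring
  refine eqP (IsCoprime.mul_dvd (IsCoprime.prod_right fun i hi => ?_) d2
    (prod_dvd_of_coprime (fun i hi j hj q => ne _ ?_ _ ?_ (by omega)) fun i hi => ?_)) rB.1
    (by rw [(R_PB _ _).symm.co (add_zero _), coeff_neg, PB0]; simp) (by simp [E0, F0]) (PB0 _ _)
  · have hi := mem_range.1 hi
    have := (ne 0 (by omega) (2 * i + 2) (by omega) (by omega)).mul_left
      (ne (2 * M + 2) le_rfl (2 * i + 2) (by omega) (by omega))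
    refine IsCoprime.of_mul_left_left (y := 1 - X ^ 2) ?_
    convert this using 1
    simp [t0, t1, qp, show C (2 : ℝ) = 2 from rfl]; ring
  · simp at hi; omega
  · simp at hj; omega
  have := dv (2 * (i + 1)) (by omega) (by simp at hi; omega)
  rwa [pow_mul, neg_one_sq, one_pow, one_mul] at this

end Pool.Agent.H.MP_73cdf8_lc
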