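import Pool.Agent.H.MP_73cdf8_lc.C
import Pool.Agent.H.MP_73cdf8_lc.D
import Pool.Agent.Lib.helper22.CXEtrH

namespace Pool.Agent.H.MP_73cdf8_lc

open Finset Polynomial Pool.Agent.Lib.ER

def be (n : ℕ) : ℕ := n * n + n

def nu (n : ℕ) : ℕ := 2 * be n

def ix (n i j : ℕ) : ℕ := 21 * nu n + (nu n + be n + n * i - j)

def ok (n r : ℕ) : Prop := (∃ i < n, r = 12 * nu n + i ∨ r = 12 * nu n + (be n + n * i)) ∨
  (21 * nu n ≤ r ∧ r ≤ 23 * nu n) ∨ (30 * nu n ≤ r ∧ r ≤ 33 * nu n)

structure Cons (n : ℕ) (Fs : List Bf) (l : ℕ → ℝ) : Prop where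
  z : ∀ r < 35 * nu n + 1, 0 < r → ¬ok n r → l r = 0
  dup : ∀ i < n, l (12 * nu n + i) = l (12 * nu n + (be n + n * i))
  sym : ∀ j < 2 * nu n + 1, l (21 * nu n + j) = l (21 * nu n + (2 * nu n - j))
  form : ∀ Q ∈ Fs, (Q.map fun t => (t.1 : ℝ) * l (ix n t.2.1 t.2.2)).sum = 0
  norm : l (21 * nu n + nu n) + 9 * n * ∑ i ∈ range n, l (ix n i i) = 0

theorem bd {n i : ℕ} (h : i < n) : n * i + n ≤ n * n := by nlinarith

theorem cv {r : ℕ} {p : ℝ[X]} : X ^ r ∣ p ↔ PowerSeries.X ^ r ∣ (p : PowerSeries ℝ) := by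
  simp [X_pow_dvd_iff, PowerSeries.X_pow_dvd_iff]

theorem wco {v : ℕ} {F0 G0 F1 G1 F2 G2 : ℝ[X]} (h0 : R v F0 G0) (h1 : R (2 * v) F1 G1) (h2 : R (3 * v) F2 G2)
    (hv : 0 < v) (r : ℕ) : (X ^ (12 * v) * (F0 + X ^ (9 * v) * F1 + X ^ (2 * (9 * v)) * F2)).coeff r =
      if 12 * v ≤ r ∧ r ≤ 13 * v then F0.coeff (r - 12 * v) else if 21 * v ≤ r ∧ r ≤ 23 * v then F1.coeff (r - 21 * v)
      else if 30 * v ≤ r ∧ r ≤ 33 * v then F2.coeff (r - 30 * v) else 0 := by
  rw [mul_add, mul_add, ← mul_assoc, ← mul_assoc, ← pow_add, ← pow_add, show 12 * v + 9 * v = 21 * v by ring,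
    show 12 * v + 2 * (9 * v) = 30 * v by ring]
  simp only [coeff_add, coeff_X_pow_mul']
  have a0 : 13 * v < r → F0.coeff (r - 12 * v) = 0 := fun h => h0.z (by omega)
  have a1 : 23 * v < r → F1.coeff (r - 21 * v) = 0 := fun h => h1.z (by omega)
  have a2 : 33 * v < r → F2.coeff (r - 30 * v) = 0 := fun h => h2.z (by omega)
  split_ifs <;> first | omega | simp (disch := omega) [a0, a1, a2]

theorem cross {n i j : ℕ} {F G : ℝ[X]} (h : R (nu n) F G) (hs : ∀ p, F.coeff p ≠ 0 → ∃ i < n, p = i ∨ p = be n + n * i)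
    (hi : i < n) (hj : j < n) : (F * G).coeff (nu n + be n + n * i - j) = F.coeff (be n + n * i) * F.coeff j := by
  have e1 : nu n = 2 * be n := rfl
  have e2 : be n = n * n + n := rfl
  rw [coeff_mul, sum_eq_single (be n + n * i, nu n - j), h.co (j := j) (by omega)]
  · rintro ⟨p, q⟩ hp ne
    rw [HasAntidiagonal.mem_antidiagonal] at hp
    by_cases hq : nu n < q
    · rw [h.symm.z hq, mul_zero]
    rw [h.co (j := nu n - q) (by omega)]
    by_contra c
    obtain ⟨a, ha, e⟩ := hs _ (left_ne_zero_of_mul c)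
    obtain ⟨b, hb, f⟩ := hs _ (right_ne_zero_of_mul c)
    have := bd ha
    have := bd hi
    simp only at hp e f
    have : a = i := by
      rcases lt_trichotomy a i with g | g | g
      · have : n * a + n ≤ n * i := by nlinarith
        omega
      · exact g
      · have : n * i + n ≤ n * a := by nlinarith
        omega
    subst this
    exact ne (Prod.ext (by simp only; omega) (by simp only; omega))
  · simp; omega

theorem sound {n M : ℕ} {Fs : List Bf} {c : ℕ → ℝ} (hn : 0 < n) (hF : ∀ Q ∈ Fs, ∀ t ∈ Q, t.2.1 < n ∧ t.2.2 < n)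
    (hM : M + 1 = 11 * nu n) (h0 : c 0 = 1) (h1 : c (2 * M + 2) = -1)
    (H : Cons n Fs fun r => PowerSeries.coeff r (lam c M)) :
    ∃ u : ℕ → ℝ, (∃ i < n, u i ≠ 0) ∧ ∀ Q ∈ Fs, Bf.val Q u u = 0 := by
  have e1 : nu n = 2 * be n := rfl
  have e2 : be n = n * n + n := rfl
  have h2 : C (1 / 2 : ℝ) * 2 = 1 := by rw [show (2 : ℝ[X]) = C 2 from rfl, ← map_mul]; simp
  have rA : R (2 * (M + 1)) (PA c M) (PA c M) := R_prod _ _
  have rE := (R.c (1 / 2)).mul (rA.add (R_PB c M))
  have lk := (link h0 h1 (E := C (1 / 2) * (PA c M + PB c M)) (F := C (1 / 2) * (PA c M + -PB c M))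
    (by linear_combination -PA c M * h2) (by linear_combination -PB c M * h2) (12 * nu n - 1)).2
  have E0 : C (1 / 2) * (PA c M + PB c M) ≠ 0 := fun e => by
    have := congrArg (coeff · 0) e
    simp only [coeff_C_mul, coeff_add, PA0, PB0, coeff_zero] at this
    norm_num at this
  generalize C (1 / 2) * (PA c M + PB c M) = E at *
  generalize C (1 / 2) * (PA c M + -PB c M) = F at *
  have l0 : PowerSeries.coeff 0 (lam c M) = 0 := by simp [lam]
  generalize lam c M = l at *
  have nk : ∀ r, ok n r → 12 * nu n ≤ r := by rintro r (⟨i, -, h⟩ | h) <;> omega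
  rw [show 12 * nu n - 1 + 1 = 12 * nu n by omega] at lk
  obtain ⟨⟨G, rfl⟩, d⟩ := lk (PowerSeries.X_pow_dvd_iff.2 fun r hr => by
    rcases r.eq_zero_or_pos with rfl | h
    · exact l0
    · exact H.z r (by omega) h fun k => by have := nk r k; omega)
  have rG : R (9 * nu n + nu n) E G := by
    have g : G.natDegree ≤ 9 * nu n + nu n := by
      by_cases g : G = 0
      · simp [g]
      have := rE.symm.1
      rw [natDegree_X_pow_mul _ g] at this
      omega
    have := (((R.mk' G g).sh (12 * nu n)).of (by omega) rfl rfl).uq rE.symm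
    exact this ▸ (R.mk' G g).symm
  let w : ℕ → ℕ → ℝ[X] := fun s N => PowerSeries.trunc (N + 1) (PowerSeries.mk fun p => PowerSeries.coeff (s + p) l)
  have wc : ∀ s N p, (w s N).coeff p = if p < N + 1 then PowerSeries.coeff (s + p) l else 0 := fun s N p => by
    simp [w, PowerSeries.coeff_trunc]
  have wd : ∀ s N, (w s N).natDegree ≤ N := fun s N => Nat.le_of_lt_succ (PowerSeries.natDegree_trunc_lt _ _)
  have r0 := R.mk' _ (wd (12 * nu n) (nu n))
  have r1 : R (2 * nu n) (w (21 * nu n) (2 * nu n)) (w (21 * nu n) (2 * nu n)) := ⟨wd _ _, by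
    ext p
    by_cases h : p ≤ 2 * nu n
    · rw [coeff_reflect, revAt_le h, wc, wc, if_pos (by omega), if_pos (by omega), H.sym p (by omega)]
    · rw [coeff_reflect, revAt_eq_self_of_lt (by omega)]⟩
  have r2 := R.mk' _ (wd (30 * nu n) (3 * nu n))
  have f0 : ∀ p ≤ nu n, (w (12 * nu n) (nu n)).coeff p = PowerSeries.coeff (12 * nu n + p) l := fun p h => by
    rw [wc, if_pos (by omega)]
  have f1 : ∀ p ≤ 2 * nu n, (w (21 * nu n) (2 * nu n)).coeff p = PowerSeries.coeff (21 * nu n + p) l := fun p h => by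
    rw [wc, if_pos (by omega)]
  have hs : ∀ p, (w (12 * nu n) (nu n)).coeff p ≠ 0 → ∃ i < n, p = i ∨ p = be n + n * i := fun p h => by
    rw [wc] at h
    split_ifs at h with q
    · by_contra k
      refine h (H.z _ (by omega) (by omega) ?_)
      rintro (⟨i, hi, e⟩ | e)
      · exact k ⟨i, hi, by omega⟩
      · omega
    · exact absurd rfl h
  have key : PowerSeries.X ^ (35 * nu n + 1) ∣ l - ((X ^ (12 * nu n) * (w (12 * nu n) (nu n) +
      X ^ (9 * nu n) * w (21 * nu n) (2 * nu n) + X ^ (2 * (9 * nu n)) * w (30 * nu n) (3 * nu n)) : ℝ[X]) : PowerSeries ℝ) := by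
    refine PowerSeries.X_pow_dvd_iff.2 fun r hr => ?_
    rw [map_sub, coeff_coe, wco r0 r1 r2 (by omega), sub_eq_zero]
    split_ifs with a b d
    · rw [wc, if_pos (by omega), show 12 * nu n + (r - 12 * nu n) = r by omega]
    · rw [wc, if_pos (by omega), show 21 * nu n + (r - 21 * nu n) = r by omega]
    · rw [wc, if_pos (by omega), show 30 * nu n + (r - 30 * nu n) = r by omega]
    rcases r.eq_zero_or_pos with rfl | h
    · exact l0
    refine H.z r hr h ?_
    rintro (⟨i, hi, e⟩ | e)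
    · have := bd hi; omega
    · omega
  generalize w (12 * nu n) (nu n) = F0 at *
  generalize w (21 * nu n) (2 * nu n) = F1 at *
  generalize w (30 * nu n) (3 * nu n) = F2 at *
  have g := gap (by omega) rG E0 r0 r1 r2 (by
    refine (mul_dvd_mul_iff_left (pow_ne_zero (12 * nu n) X_ne_zero)).1 ?_
    rw [← pow_add, cv, show 12 * nu n + (2 * (9 * nu n) + 5 * nu n + 1) = 35 * nu n + 1 by ring]
    convert ((pow_dvd_pow _ (by omega : 35 * nu n + 1 ≤ _)).trans d).add (key.mul_right E) using 1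
    push_cast; ring)
  obtain ⟨s, hs1, e⟩ : ∃ s : ℝ, s ≠ 0 ∧ F1 = C s * (X ^ nu n - F0 * reflect (nu n) F0) := by
    rcases sq_eq_sq_iff_eq_or_eq_neg.1 g with e | e
    · exact ⟨1, one_ne_zero, by simp [e]⟩
    · exact ⟨-1, by simp, by simp [e]⟩
  have cr : ∀ i < n, ∀ j < n, PowerSeries.coeff (ix n i j) l = -s * (F0.coeff i * F0.coeff j) := fun i hi j hj => by
    have := bd hi
    rw [ix, ← f1 _ (by omega), e, coeff_C_mul, coeff_sub, cross r0 hs hi hj, coeff_X_pow, if_neg (by omega),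
      f0 (be n + n * i) (by omega), ← H.dup i hi, ← f0 i (by omega)]
    ring
  refine ⟨F0.coeff, ?_, fun Q hQ => ?_⟩
  · by_contra k
    push Not at k
    have z : F0 = 0 := by
      ext p
      by_contra q
      obtain ⟨i, hi, rfl | rfl⟩ := hs p q
      · exact q (k _ hi)
      · have := bd hi
        rw [f0 _ (by omega), ← H.dup i hi, ← f0 i (by omega)] at q
        exact q (k _ hi)
    have := H.norm
    rw [sum_eq_zero fun i hi => by rw [cr i (mem_range.1 hi) i (mem_range.1 hi), z]; simp, ← f1 _ (by omega), e, z] at this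
    simp [hs1] at this
  · have := H.form Q hQ
    rw [List.map_congr_left (g := fun t => -s * (t.1 * (F0.coeff t.2.1 * F0.coeff t.2.2))) fun t ht => by
      rw [cr _ (hF Q hQ t ht).1 _ (hF Q hQ t ht).2]; ring, List.sum_map_mul_left] at this
    exact (mul_eq_zero.1 this).resolve_left (neg_ne_zero.2 hs1)

end Pool.Agent.H.MP_73cdf8_lc
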