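import Pool.Agent.H.MP_73cdf8_lc.E

namespace Pool.Agent.H.MP_73cdf8_lc

open Finset Polynomial Pool.Agent.Lib.ER Complex

noncomputable def H0 (n : ℕ) (u : ℕ → ℝ) : ℝ[X] := ∑ i ∈ range n, C (u i) * (X ^ i + X ^ (be n + n * i))

theorem H0_co (n u p) : (H0 n u).coeff p =
    ∑ i ∈ range n, u i * ((if p = i then 1 else 0) + if p = be n + n * i then 1 else 0) := by
  simp only [H0, finsetSum_coeff, coeff_C_mul, coeff_add, coeff_X_pow]

theorem H0_s {n u} (p) (h : (H0 n u).coeff p ≠ 0) : ∃ i < n, p = i ∨ p = be n + n * i := by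
  by_contra k
  push Not at k
  exact h (by rw [H0_co]; exact sum_eq_zero fun i hi => by simp [k i (mem_range.1 hi)])

theorem H0_a {n u i} (h : i < n) : (H0 n u).coeff i = u i := by
  have e2 : be n = n * n + n := rfl
  rw [H0_co, sum_eq_single i (fun j _ e => by rw [if_neg e.symm, if_neg (by omega)]; simp) (by simp; omega), if_pos rfl,
    if_neg (by omega)]
  simp

theorem H0_b {n u i} (h : i < n) : (H0 n u).coeff (be n + n * i) = u i := by
  have e2 : be n = n * n + n := rfl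
  rw [H0_co, sum_eq_single i (fun j hj e => by
    rw [if_neg (by have := mem_range.1 hj; omega), if_neg fun q => e (Nat.eq_of_mul_eq_mul_left (by omega : 0 < n) (by omega))]
    simp) (by simp; omega), if_pos rfl, if_neg (by omega)]
  simp

theorem H0_d (n u) : (H0 n u).natDegree ≤ nu n := natDegree_le_iff_coeff_eq_zero.2 fun p hp => by
  by_contra k
  obtain ⟨i, hi, e⟩ := H0_s p k
  have := bd hi
  unfold nu be at *
  omega

theorem H0_n (n u) (θ : ℝ) : ‖aeval (cexp (θ * I)) (H0 n u)‖ ≤ 2 * ∑ i ∈ range n, |u i| := by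
  rw [H0, map_sum, mul_sum]
  refine norm_sum_le_of_le _ fun i _ => ?_
  have := norm_add_le (cexp (θ * I) ^ i) (cexp (θ * I) ^ (be n + n * i))
  simp only [norm_pow, norm_exp_ofReal_mul_I, one_pow] at this
  simp only [map_mul, map_add, map_pow, aeval_X, aeval_C, norm_mul, coe_algebraMap, norm_real, Real.norm_eq_abs]
  nlinarith [abs_nonneg (u i)]

theorem complete {n M : ℕ} {Fs : List Bf} (hn : 0 < n) (hF : ∀ Q ∈ Fs, ∀ t ∈ Q, t.2.1 < n ∧ t.2.2 < n)
    (hM : M + 1 = 11 * nu n) {u : ℕ → ℝ} (hu : ∃ i < n, u i ≠ 0) (hQ : ∀ Q ∈ Fs, Bf.val Q u u = 0) :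
    ∃ c : ℕ → ℝ, c 0 = 1 ∧ c (2 * M + 2) = -1 ∧ (∀ i ≤ 2 * M + 1, c (i + 1) ≤ c i) ∧
      Cons n Fs fun r => PowerSeries.coeff r (lam c M) := by
  have e1 : nu n = 2 * be n := rfl
  have e2 : be n = n * n + n := rfl
  have r := R.mk' _ (H0_d n u)
  obtain ⟨s, hs⟩ : ∃ s, s = ∑ i ∈ range n, u i * u i := ⟨_, rfl⟩
  have s0 : 0 < s := by
    obtain ⟨i, hi, e⟩ := hu
    exact hs ▸ sum_pos' (fun j _ => mul_self_nonneg _) ⟨i, mem_range.2 hi, mul_self_pos.2 e⟩
  obtain ⟨z, hz⟩ : ∃ z, z = (H0 n u * reflect (nu n) (H0 n u)).coeff (nu n) := ⟨_, rfl⟩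
  have z0 : 0 ≤ z := by
    rw [hz, coeff_mul]
    refine sum_nonneg fun p hp => ?_
    rw [HasAntidiagonal.mem_antidiagonal] at hp
    rw [r.co (j := p.1) (by omega)]
    exact mul_self_nonneg _
  have n0 : (0 : ℝ) < n := by exact_mod_cast hn
  obtain ⟨t, t0, ht⟩ : ∃ t : ℝ, 0 < t ∧ t * t * (9 * n * s + z) = 1 :=
    ⟨√(9 * n * s + z)⁻¹, by positivity, by rw [Real.mul_self_sqrt (by positivity), inv_mul_cancel₀ (by positivity)]⟩
  have r0 := ((R.c t).mul r).of (zero_add _) rfl rfl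
  have cr : ∀ i < n, ∀ j < n, (H0 n u * reflect (nu n) (H0 n u)).coeff (nu n + be n + n * i - j) = u i * u j :=
    fun i hi j hj => by rw [cross r H0_s hi hj, H0_a hj, H0_b hi]
  have nb : ∀ θ : ℝ, ‖aeval (cexp (θ * I)) (C t * reflect (nu n) (H0 n u))‖ < √2 / 2 := fun θ => by
    have a := congrArg norm (refl_ev r θ)
    have e : cexp (-(nu n * θ * I)) = cexp ((-(nu n * θ) : ℝ) * I) := by simp
    rw [norm_mul, e, norm_exp_ofReal_mul_I, mul_one, norm_conj] at a
    rw [map_mul, norm_mul, a, aeval_C, coe_algebraMap, norm_real, Real.norm_of_nonneg t0.le]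
    have b := sq_sum_le_card_mul_sum_sq (s := range n) (f := fun i => |u i|)
    simp only [sq_abs, card_range] at b
    simp only [sq, ← hs] at b
    refine (mul_le_mul_of_nonneg_left (H0_n n u θ) t0.le).trans_lt (lt_of_pow_lt_pow_left₀ 2 (by positivity) ?_)
    rw [div_pow, Real.sq_sqrt (by norm_num)]
    have := mul_le_mul_of_nonneg_left b (mul_self_nonneg t)
    have := mul_nonneg (mul_self_nonneg t) z0
    nlinarith
  have ha : ∀ i < n, (C t * H0 n u).coeff i = (C t * H0 n u).coeff (be n + n * i) := fun i hi => by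
    rw [coeff_C_mul, coeff_C_mul, H0_a hi, H0_b hi]
  have hb : ∀ p, (C t * H0 n u).coeff p ≠ 0 → ∃ i < n, p = i ∨ p = be n + n * i := fun p h =>
    H0_s (u := u) p fun e => h (by rw [coeff_C_mul, e, mul_zero])
  have r1 : R (2 * nu n) (X ^ nu n - C t * H0 n u * (C t * reflect (nu n) (H0 n u)))
      (X ^ nu n - C t * H0 n u * (C t * reflect (nu n) (H0 n u))) :=
    ((((R.one (nu n)).sh (nu n)).sub (r0.mul r0.symm))).of (by ring) (by ring) (by ring)
  have c1 : ∀ p, (X ^ nu n - C t * H0 n u * (C t * reflect (nu n) (H0 n u))).coeff p =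
      (if p = nu n then 1 else 0) - t * t * (H0 n u * reflect (nu n) (H0 n u)).coeff p := fun p => by
    rw [coeff_sub, coeff_X_pow, mul_mul_mul_comm, ← map_mul, coeff_C_mul]
  obtain ⟨D, hD⟩ : ∃ D, D = X ^ nu n - C t * H0 n u * (C t * reflect (nu n) (H0 n u)) := ⟨_, rfl⟩
  rw [← hD] at r1 c1
  generalize C t * H0 n u = P at *
  generalize C t * reflect (nu n) (H0 n u) = G at *
  have r2 := (((R.c (-1)).mul r0.symm).mul r1).of (M := 3 * nu n) (by ring) rfl rfl
  have rE := ((((R.one (9 * nu n + nu n)).add (r0.symm.sh (9 * nu n))).up (12 * nu n))).of (M := 2 * (M + 1))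
    (by omega) rfl rfl
  obtain ⟨c, c0, c2, mo, hA, hB⟩ := roots rE (by simp; omega) (by simp; omega)
    fun θ => by
      rw [map_add, map_one, add_sub_cancel_left, map_mul, norm_mul, map_pow, aeval_X, norm_pow, norm_exp_ofReal_mul_I,
        one_pow, one_mul]
      exact nb θ
  have lk := link c0 c2 hA hB (12 * nu n - 1)
  rw [show 12 * nu n - 1 + 1 = 12 * nu n by omega] at lk
  have d := (lk.2 (lk.1 (dvd_mul_right _ _))).2
  have key : PowerSeries.X ^ (35 * nu n + 1) ∣ lam c M - ((X ^ (12 * nu n) * (P +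
      X ^ (9 * nu n) * D + X ^ (2 * (9 * nu n)) * (C (-1) * G * D)) : ℝ[X]) : PowerSeries ℝ) := by
    refine cancel (e := (1 + X ^ (9 * nu n) * G : ℝ[X])) (by simp; omega) ?_
    have a := cv.1 ((pow_dvd_pow X (by omega : 35 * nu n + 1 ≤ 39 * nu n)).mul_right (G ^ 2 * D))
    convert a.sub ((pow_dvd_pow _ (by omega : 35 * nu n + 1 ≤ _)).trans d) using 1
    rw [hD, map_neg, map_one]
    push_cast; ring
  have co := fun r (hr : r < 35 * nu n + 1) => (sub_eq_zero.1 (by
    have := PowerSeries.X_pow_dvd_iff.1 key r hr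
    rwa [map_sub, coeff_coe] at this)).trans (wco r0 r1 r2 (by omega) r)
  have f0 : ∀ p ≤ nu n, PowerSeries.coeff (12 * nu n + p) (lam c M) = P.coeff p := fun p h => by
    rw [co _ (by omega), if_pos (by omega), Nat.add_sub_cancel_left]
  have f1 : ∀ p ≤ 2 * nu n, PowerSeries.coeff (21 * nu n + p) (lam c M) = D.coeff p := fun p h => by
    rw [co _ (by omega), if_neg (by omega), if_pos (by omega), Nat.add_sub_cancel_left]
  have fx : ∀ i < n, ∀ j < n, PowerSeries.coeff (ix n i j) (lam c M) = -(t * t) * (u i * u j) := fun i hi j hj => by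
    have := bd hi
    rw [ix, f1 _ (by omega), c1, cr i hi j hj, if_neg (by omega)]; ring
  refine ⟨c, c0, c2, mo, fun r hr _ k => ?_, fun i hi => ?_, fun j hj => ?_, fun Q h => ?_, ?_⟩
  · rw [co r hr]
    split_ifs with a b d
    · by_contra q
      obtain ⟨i, hi, e⟩ := hb _ q
      exact k (.inl ⟨i, hi, by omega⟩)
    · exact absurd (.inr (.inl b)) k
    · exact absurd (.inr (.inr d)) k
    · rfl
  · have := bd hi
    rw [f0 _ (by omega), f0 _ (by omega), ha i hi]
  · rw [f1 _ (by omega), f1 _ (by omega), r1.co (j := 2 * nu n - j) (by omega)]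
  · rw [List.map_congr_left (g := fun a => -(t * t) * (a.1 * (u a.2.1 * u a.2.2))) fun a ha => by
      rw [fx _ (hF Q h a ha).1 _ (hF Q h a ha).2]; ring, List.sum_map_mul_left]
    exact mul_eq_zero_of_right _ (hQ Q h)
  · rw [sum_congr rfl fun i hi => fx i (mem_range.1 hi) i (mem_range.1 hi), ← mul_sum, ← hs, f1 _ (by omega), c1,
      if_pos rfl, ← hz]
    linear_combination -ht

end Pool.Agent.H.MP_73cdf8_lc
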