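import Pool.Agent.H.MP_73cdf8_lc.F
import Pool.Agent.H.MP_c3079b_lc.I
import Pool.Agent.Lib.lead.CXRat

namespace Pool.Agent.H.MP_73cdf8_lc

open Finset Pool.Agent.Lib.ER Pool.Agent.Lib.CX Pool.Agent.H.MP_c3079b_lc

def cf (r k : ℕ) : ℤ := (1 - 2 * ((k % 2 : ℕ) : ℤ)) * ((4 ^ k * ((r + k).choose (2 * k) + (r - 1 + k).choose (2 * k)) : ℕ) : ℤ)

def poly (T : List Unit) (g : List (ℤ × ℕ)) : List ℚ := (List.range T.length).map fun k =>
  (((g.map fun a => a.1 * ((T.length.factorial / a.2 : ℕ) : ℤ) * cf (min a.2 T.length) k).sum : ℤ) : ℚ)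

theorem cf_sum {r T : ℕ} (h0 : 0 < r) (h : r < T) (x : ℝ) :
    ∑ k ∈ range T, (cf r k : ℝ) * x ^ k = PowerSeries.coeff (r - 1) (S (1 - 2 * x)) := by
  obtain ⟨r, rfl⟩ : ∃ s, r = s + 1 := ⟨r - 1, by omega⟩
  rw [S, PowerSeries.coeff_mk, Nat.add_sub_cancel, ← V_eq T x _ h, ← V_eq T x _ (by omega), V, V, ← sum_add_distrib]
  refine sum_congr rfl fun k _ => ?_
  have : (1 - 2 * ((k % 2 : ℕ) : ℝ)) = (-1) ^ k := by
    rcases Nat.even_or_odd k with q | q
    · rw [q.neg_one_pow, Nat.even_iff.1 q]; simp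
    · rw [q.neg_one_pow, Nat.odd_iff.1 q]; norm_num
  rw [cf, Nat.add_sub_cancel, Int.cast_mul, Int.cast_sub, Int.cast_mul, Int.cast_natCast, Int.cast_natCast, Int.cast_one,
    Int.cast_ofNat, this, show -4 * x = -1 * 4 * x by ring, mul_pow, mul_pow]
  push_cast; ring

theorem ev_poly (T : List Unit) (x : ℝ) (g : List (ℤ × ℕ)) (h : ∀ a ∈ g, 0 < a.2 ∧ a.2 < T.length) : ev (poly T g) x =
    (g.map fun a => (a.1 : ℝ) * (T.length.factorial / a.2 : ℕ) * PowerSeries.coeff (a.2 - 1) (S (1 - 2 * x))).sum := by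
  have : ev (poly T g) x = ∑ k ∈ range T.length, (((g.map fun a => a.1 * ((T.length.factorial / a.2 : ℕ) : ℤ) *
      cf (min a.2 T.length) k).sum : ℤ) : ℝ) * x ^ k := by
    rw [ev, poly, List.length_map, List.length_range]
    refine sum_congr rfl fun k hk => ?_
    rw [List.getD_eq_getElem _ _ (by simpa using hk), List.getElem_map, List.getElem_range, Rat.cast_intCast]
  rw [this]
  clear this
  induction g with
  | nil => simp
  | cons a g ih =>
    have := h a (by simp)
    simp only [List.map_cons, List.sum_cons, Int.cast_add, add_mul, sum_add_distrib]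
    rw [ih fun b hb => h b (by simp [hb]), ← cf_sum this.1 this.2, min_eq_left this.2.le, mul_sum]
    simp only [Int.cast_mul, Int.cast_natCast, mul_assoc]

theorem sum_eo (f : ℕ → ℝ) (M : ℕ) : (∑ i ∈ range (2 * M) with Even i, f i = ∑ i ∈ range M, f (2 * i)) ∧
    ∑ i ∈ range (2 * M) with Odd i, f i = ∑ i ∈ range M, f (2 * i + 1) := by
  simp only [sum_filter]
  induction M with
  | zero => simp
  | succ M ih => simp [mul_add, sum_range_succ, ih.1, ih.2, parity_simps]

theorem half (T : List Unit) (x : ℕ → ℝ) (M : ℕ) (g : List (ℤ × ℕ)) (h : ∀ a ∈ g, 0 < a.2 ∧ a.2 < T.length) :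
    ∑ i ∈ range (2 * M + 1 + 1) with Even i, (ev (poly T g) (x (i + 1)) - ev (poly T g) (x i)) =
      ∑ i ∈ range (2 * M + 1 + 1) with Odd i, (ev (poly T g) (x (i + 1)) - ev (poly T g) (x i)) ↔
    (g.map fun a => (a.1 : ℝ) * PowerSeries.coeff a.2 (lam (fun i => 1 - 2 * x i) M)).sum = 0 := by
  rw [show 2 * M + 1 + 1 = 2 * (M + 1) by ring, (sum_eo _ _).1, (sum_eo _ _).2, ← sub_eq_zero, ← sum_sub_distrib]
  simp only [ev_poly T _ g h]
  have nz : (-4 * T.length.factorial : ℝ) ≠ 0 := by positivity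
  refine (Eq.congr_left ?_).trans (mul_eq_zero_iff_left nz)
  induction g with
  | nil => simp
  | cons a g ih =>
    have ha := h a (by simp)
    have ih := ih fun b hb => h b (by simp [hb])
    simp only [List.map_cons, List.sum_cons, mul_add (-4 * _ : ℝ)]
    rw [← ih, lam, PowerSeries.coeff_mk, cc, map_sub, PowerSeries.coeff_C_mul, map_add, map_sum, map_sum, map_sum,
      Nat.cast_div (Nat.dvd_factorial ha.1 ha.2.le) (by exact_mod_cast ha.1.ne')]
    simp only [sum_sub_distrib, sum_add_distrib, ← mul_sum, add_assoc, one_add_one_eq_two]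
    have : (a.2 : ℝ) ≠ 0 := by exact_mod_cast ha.1.ne'
    field_simp
    ring

instance (n r) : Decidable (ok n r) := by unfold ok; infer_instance

def cons (a : List Unit × List Bf) : List (List (ℤ × ℕ)) :=
  (((List.range (35 * nu a.1.length + 1)).filter fun r => 0 < r ∧ ¬ok a.1.length r).map fun r => [(1, r)]) ++
  ((List.range a.1.length).map fun i =>
    [(1, 12 * nu a.1.length + i), (-1, 12 * nu a.1.length + (be a.1.length + a.1.length * i))]) ++
  ((List.range (2 * nu a.1.length + 1)).map fun j =>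
    [(1, 21 * nu a.1.length + j), (-1, 21 * nu a.1.length + (2 * nu a.1.length - j))]) ++
  (a.2.map fun Q => Q.map fun t => (t.1, ix a.1.length t.2.1 t.2.2)) ++
  [(1, 21 * nu a.1.length + nu a.1.length) ::
    (List.range a.1.length).map fun i => (9 * (a.1.length : ℤ), ix a.1.length i i)]

def red (a : List Unit × List Bf) : List (List ℚ) × ℕ :=
  ((cons a).map (poly (List.replicate (35 * nu a.1.length + 1) ())), 2 * (11 * nu a.1.length - 1) + 1)

theorem cons_iff (n : List Unit) (Fs : List Bf) (l : ℕ → ℝ) :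
    (∀ g ∈ cons (n, Fs), (g.map fun a => (a.1 : ℝ) * l a.2).sum = 0) ↔ Cons n.length Fs l := by
  have e : ((List.range n.length).map fun i => (9 * n.length : ℝ) * l (ix n.length i i)).sum =
      9 * n.length * ∑ i ∈ range n.length, l (ix n.length i i) := by
    rw [List.sum_map_mul_left]; rfl
  simp only [cons, List.forall_mem_append, List.forall_mem_map, List.forall_mem_cons, List.mem_filter, List.mem_range,
    List.not_mem_nil, false_imp_iff, implies_true, and_true, List.map_cons, List.sum_cons, List.map_nil, List.sum_nil,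
    List.map_map, Function.comp_def, Int.cast_one, Int.cast_neg, one_mul, add_zero, neg_mul, add_neg_eq_zero,
    decide_eq_true_eq, Int.cast_mul, Int.cast_ofNat, Int.cast_natCast, e, and_imp]
  exact ⟨fun ⟨⟨⟨⟨a, b⟩, c⟩, d⟩, f⟩ => ⟨a, b, c, d, f⟩, fun ⟨a, b, c, d, f⟩ => ⟨⟨⟨⟨a, b⟩, c⟩, d⟩, f⟩⟩

theorem cons_lt {n : List Unit} {Fs : List Bf} (hn : 0 < n.length)
    (hF : ∀ Q ∈ Fs, ∀ t ∈ Q, t.2.1 < n.length ∧ t.2.2 < n.length) :
    ∀ g ∈ cons (n, Fs), ∀ a ∈ g, 0 < a.2 ∧ a.2 < 35 * nu n.length + 1 := by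
  have e1 : nu n.length = 2 * be n.length := rfl
  have e2 : be n.length = n.length * n.length + n.length := rfl
  have q : ∀ i < n.length, ∀ j, 0 < ix n.length i j ∧ ix n.length i j < 35 * nu n.length + 1 := fun i hi j => by
    have := bd hi; unfold ix; omega
  simp only [cons, List.forall_mem_append, List.forall_mem_map, List.forall_mem_cons, List.mem_filter, List.mem_range,
    List.not_mem_nil, false_imp_iff, implies_true, and_true, decide_eq_true_eq]
  exact ⟨⟨⟨⟨fun r h => ⟨h.2.1, h.1⟩, fun i hi => by have := bd hi; omega⟩, fun j hj => by omega⟩,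
    fun Q h t ht => q _ (hF Q h t ht).1 _⟩, by omega, fun i hi => q i hi i⟩

set_option synthInstance.maxSize 4000

attribute [local fun_prop] pt_choose

@[fun_prop] theorem pt_rat {A : Type} [Enc A] {f : A → ℤ} (hf : PT f) : PT fun a => (f a : ℚ) :=
  (show PT fun a => (f a, (1 : ℕ)) by fun_prop).cast fun _ => rfl

theorem pt_poly : PT fun p : List Unit × List (ℤ × ℕ) => poly p.1 p.2 := by
  refine (show PT fun p : List Unit × List (ℤ × ℕ) => (List.range p.1.length).map fun k =>
    (((p.2.map fun a => a.1 * ((p.1.length.factorial / a.2 : ℕ) : ℤ) *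
      cf (min a.2 p.1.length) (min k p.1.length)).sum : ℤ) : ℚ) by unfold cf; fun_prop).congr fun p => ?_
  exact List.map_congr_left fun k hk => by rw [min_eq_left (List.mem_range.1 hk).le]

theorem pt_cons : PT cons := by unfold cons ok ix nu be; fun_prop

theorem pt_red : PT red := by
  have h1 : PT fun a : List Unit × List Bf => List.replicate (35 * nu a.1.length + 1) () := by unfold nu be; fun_prop
  have h2 : PT fun a : List Unit × List Bf => 2 * (11 * nu a.1.length - 1) + 1 := by unfold nu be; fun_prop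
  have h3 : PT fun p : List Unit × List (List (ℤ × ℕ)) => p.2.map (poly p.1) :=
    PT.map (F := fun p : List Unit × List (List (ℤ × ℕ)) => poly p.1)
      (pt_poly.comp (g := fun p : (List Unit × List (List (ℤ × ℕ))) × List (ℤ × ℕ) => (p.1.1, p.2)) (by fun_prop) :)
      (by fun_prop)
  exact (h3.comp (h1.pair pt_cons) :).pair h2

end Pool.Agent.H.MP_73cdf8_lc
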